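import Pool.Agent.helper24.SK.Spec

set_option autoImplicit false

namespace Pool.Agent.SK

open Finset ArithmeticFunction MeasureTheory
open Pool.Agent.CH (nit DPb Win Tset ph)
open Pool.Agent.EC (tri vN fN XN TL AdT)
open Pool.Agent.helper85.BVP (tau)
open GD (ks)

theorem TAM_one (x : ℕ) : 1 ≤ 1 + Real.log x := by
  have := Real.log_natCast_nonneg x
  linarith

theorem TAM_pow (k d x : ℕ) :
    (1 + Real.log ((x / d : ℕ) : ℝ)) ^ (2 ^ k) ≤ (1 + Real.log x) ^ (2 ^ k) := by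
  have h1 := TAM_one (x / d)
  have h2 := Pool.Agent.helper85.BVP.log_nat_le (Nat.div_le_self x d)
  exact pow_le_pow_left₀ (by linarith) (by linarith) _

theorem TAM_tau (k d m : ℕ) : tau (d * m) ^ k ≤ tau d ^ k * tau m ^ k := by
  rw [← mul_pow]
  exact pow_le_pow_left₀ (Pool.Agent.helper85.BVP.tau_nonneg _) (Pool.Agent.helper85.BVP.tau_mul_le d m) k

theorem TAM_div (k : ℕ) (h2 : ∀ x : ℕ, ∑ n ∈ Ioc 0 x, tau n ^ k / (n : ℝ) ≤ (1 + Real.log x) ^ (2 ^ k)) (x : ℕ) :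
    ∑ n ∈ Ioc 0 x, tau n ^ (k + 1) / (n : ℝ) ≤ (1 + Real.log x) ^ (2 ^ (k + 1)) := by
  have e1 : ∑ n ∈ Ioc 0 x, tau n ^ (k + 1) / (n : ℝ)
      = ∑ n ∈ Ioc 0 x, ∑ d ∈ n.divisors, (fun (n : ℕ) (_ : ℕ) => tau n ^ k / (n : ℝ)) n d := by
    refine sum_congr rfl fun n _ => ?_
    simp only [sum_const, nsmul_eq_mul]
    have : ((n.divisors.card : ℕ) : ℝ) = tau n := rfl
    rw [this, pow_succ]
    ring
  rw [e1, Pool.Agent.helper85.BVP.sum_divisors_swap]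
  calc ∑ d ∈ Ioc 0 x, ∑ m ∈ Ioc 0 (x / d), (fun (n : ℕ) (_ : ℕ) => tau n ^ k / (n : ℝ)) (d * m) d
      ≤ ∑ d ∈ Ioc 0 x, tau d ^ k / (d : ℝ) * ∑ m ∈ Ioc 0 (x / d), tau m ^ k / (m : ℝ) := by
        refine sum_le_sum fun d _ => ?_
        rw [mul_sum]
        refine sum_le_sum fun m _ => ?_
        simp only
        rw [div_mul_div_comm, Nat.cast_mul]
        exact div_le_div_of_nonneg_right (TAM_tau k d m) (by positivity)
    _ ≤ ∑ d ∈ Ioc 0 x, tau d ^ k / (d : ℝ) * (1 + Real.log x) ^ (2 ^ k) := by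
        refine sum_le_sum fun d _ => ?_
        refine mul_le_mul_of_nonneg_left ((h2 (x / d)).trans (TAM_pow k d x)) ?_
        exact div_nonneg (pow_nonneg (Pool.Agent.helper85.BVP.tau_nonneg _) _) (Nat.cast_nonneg _)
    _ = (∑ d ∈ Ioc 0 x, tau d ^ k / (d : ℝ)) * (1 + Real.log x) ^ (2 ^ k) := by rw [sum_mul]
    _ ≤ (1 + Real.log x) ^ (2 ^ k) * (1 + Real.log x) ^ (2 ^ k) := by
        refine mul_le_mul_of_nonneg_right (h2 x) (pow_nonneg ?_ _)
        have := TAM_one x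
        linarith
    _ = (1 + Real.log x) ^ (2 ^ (k + 1)) := by
        rw [← pow_add]
        congr 1
        rw [pow_succ]
        ring

theorem TAM_sum (k : ℕ) (h1 : ∀ x : ℕ, ∑ n ∈ Ioc 0 x, tau n ^ k ≤ x * (1 + Real.log x) ^ (2 ^ k))
    (h2 : ∀ x : ℕ, ∑ n ∈ Ioc 0 x, tau n ^ k / (n : ℝ) ≤ (1 + Real.log x) ^ (2 ^ k)) (x : ℕ) :
    ∑ n ∈ Ioc 0 x, tau n ^ (k + 1) ≤ x * (1 + Real.log x) ^ (2 ^ (k + 1)) := by
  have hL := TAM_one x
  have e1 : ∑ n ∈ Ioc 0 x, tau n ^ (k + 1)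
      = ∑ n ∈ Ioc 0 x, ∑ d ∈ n.divisors, (fun (n : ℕ) (_ : ℕ) => tau n ^ k) n d := by
    refine sum_congr rfl fun n _ => ?_
    simp only [sum_const, nsmul_eq_mul]
    have : ((n.divisors.card : ℕ) : ℝ) = tau n := rfl
    rw [this, pow_succ]
    ring
  rw [e1, Pool.Agent.helper85.BVP.sum_divisors_swap]
  calc ∑ d ∈ Ioc 0 x, ∑ m ∈ Ioc 0 (x / d), (fun (n : ℕ) (_ : ℕ) => tau n ^ k) (d * m) d
      ≤ ∑ d ∈ Ioc 0 x, tau d ^ k * ∑ m ∈ Ioc 0 (x / d), tau m ^ k := by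
        refine sum_le_sum fun d _ => ?_
        rw [mul_sum]
        exact sum_le_sum fun m _ => TAM_tau k d m
    _ ≤ ∑ d ∈ Ioc 0 x, tau d ^ k * ((x : ℝ) / d * (1 + Real.log x) ^ (2 ^ k)) := by
        refine sum_le_sum fun d _ => ?_
        refine mul_le_mul_of_nonneg_left ?_ (pow_nonneg (Pool.Agent.helper85.BVP.tau_nonneg _) _)
        refine (h1 (x / d)).trans ?_
        have h4 : ((x / d : ℕ) : ℝ) ≤ x / d := Nat.cast_div_le
        have h5 := TAM_one (x / d)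
        exact mul_le_mul h4 (TAM_pow k d x) (pow_nonneg (by linarith) _) (by positivity)
    _ = (x : ℝ) * (1 + Real.log x) ^ (2 ^ k) * ∑ d ∈ Ioc 0 x, tau d ^ k / (d : ℝ) := by
        rw [mul_sum]
        refine sum_congr rfl fun d _ => ?_
        ring
    _ ≤ (x : ℝ) * (1 + Real.log x) ^ (2 ^ k) * (1 + Real.log x) ^ (2 ^ k) := by
        refine mul_le_mul_of_nonneg_left (h2 x) ?_
        exact mul_nonneg (Nat.cast_nonneg _) (pow_nonneg (by linarith) _)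
    _ = (x : ℝ) * (1 + Real.log x) ^ (2 ^ (k + 1)) := by
        rw [mul_assoc, ← pow_add]
        congr 2
        rw [pow_succ]
        ring

theorem TAM : TAM_stmt := by
  have key : ∀ k : ℕ, (∀ x : ℕ, ∑ n ∈ Ioc 0 x, tau n ^ k ≤ x * (1 + Real.log x) ^ (2 ^ k)) ∧
      ∀ x : ℕ, ∑ n ∈ Ioc 0 x, tau n ^ k / (n : ℝ) ≤ (1 + Real.log x) ^ (2 ^ k) := by
    intro k
    induction k with
    | zero =>
      constructor
      · intro x
        have hL := TAM_one x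
        have hx : (0 : ℝ) ≤ (x : ℝ) := Nat.cast_nonneg x
        simp only [pow_zero, sum_const, Nat.card_Ioc, Nat.sub_zero, nsmul_eq_mul, mul_one, pow_one]
        nlinarith
      · intro x
        simp only [pow_zero, pow_one]
        exact Pool.Agent.helper85.BVP.harm_le x
    | succ k ih => exact ⟨TAM_sum k ih.1 ih.2, TAM_div k ih.2⟩
  intro k x
  exact ⟨(key k).1 x, (key k).2 x⟩

end Pool.Agent.SK
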